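import Mathlib
import Pool.Agent.H764R3.Space

set_option autoImplicit false

namespace Pool.Agent.Y241.DS

open Set Topology Pool.Agent.H764R3.Stat Pool.Agent.H764R3.Tree

/-- The alternating sequence of two nodes above incompatible labels stops. -/
theorem exists_stop {p P : Bool → Node} (hinc : Inc (p false).code (p true).code)
    (hpP : ∀ b, p b ≤ P b) {μ : K} (hμ : ∀ b, (p b).top ≤ μ) :
    ∃ (n : ℕ) (a : ℕ → K), a 0 = μ ∧
      (∀ i < n, IsLeast {j | (P i.bodd).y j ≠ none ∧ a i < j} (a (i + 1))) ∧
      (P n.bodd).top ≤ a n := by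
  classical
  -- the alternating sequence
  let nxt : Bool → K → K := fun b k =>
    if hk : {j | (P b).y j ≠ none ∧ k < j}.Nonempty then wellFounded_lt.min _ hk else k
  have hnxt : ∀ b k, {j | (P b).y j ≠ none ∧ k < j}.Nonempty →
      IsLeast {j | (P b).y j ≠ none ∧ k < j} (nxt b k) := by
    intro b k hk
    have h1 : nxt b k = wellFounded_lt.min _ hk := dif_pos hk
    rw [h1]
    exact ⟨wellFounded_lt.min_mem _ hk, fun j hj => not_lt.1 (wellFounded_lt.not_lt_min _ hj)⟩
  let a : ℕ → K := fun n => Nat.rec μ (fun n k => nxt n.bodd k) n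
  have ha : ∀ n, a (n + 1) = nxt n.bodd (a n) := fun n => rfl
  have hex : ∃ n, ¬ {j | (P n.bodd).y j ≠ none ∧ a n < j}.Nonempty := by
    by_contra hcon
    push Not at hcon
    have h1 : ∀ n, IsLeast {j | (P n.bodd).y j ≠ none ∧ a n < j} (a (n + 1)) := fun n => by
      rw [ha]; exact hnxt _ _ (hcon n)
    have hmono : StrictMono a := strictMono_nat_of_lt_succ fun n => (h1 n).1.2
    obtain ⟨δ, hδ⟩ := exists_lub a
    -- subsequences
    have hlub : ∀ e : ℕ → ℕ, (∀ n, n ≤ e n) → IsLUB (range fun n => a (e n)) δ := by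
      intro e he
      constructor
      · rintro _ ⟨n, rfl⟩
        exact hδ.1 ⟨e n, rfl⟩
      · intro b hb
        apply hδ.2
        rintro _ ⟨n, rfl⟩
        exact (hmono.monotone (he n)).trans (hb ⟨n, rfl⟩)
    have hb : ∀ b : Bool, ∃ e : ℕ → ℕ, (∀ n, n ≤ e n) ∧ StrictMono e ∧
        ∀ n, 0 < e n ∧ (P b).y (a (e n)) ≠ none := by
      intro b
      cases b with
      | false =>
        refine ⟨fun n => 2 * n + 1, fun n => by show n ≤ 2 * n + 1; omega, fun m n hmn => by
          show 2 * m + 1 < 2 * n + 1; omega, fun n => ⟨by show 0 < 2 * n + 1; omega, ?_⟩⟩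
        have h2 := (h1 (2 * n)).1.1
        have h3 : (2 * n).bodd = false := by simp
        rw [h3] at h2
        exact h2
      | true =>
        refine ⟨fun n => 2 * n + 2, fun n => by show n ≤ 2 * n + 2; omega, fun m n hmn => by
          show 2 * m + 2 < 2 * n + 2; omega, fun n => ⟨by show 0 < 2 * n + 2; omega, ?_⟩⟩
        have h2 := (h1 (2 * n + 1)).1.1
        have h3 : (2 * n + 1).bodd = true := by simp
        rw [h3] at h2
        exact h2
    have hle : ∀ b : Bool, (p b).code ≤ h δ := by
      intro b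
      obtain ⟨e, he1, he2, he3⟩ := hb b
      have h4 := (P b).lim (fun n => a (e n)) (hmono.comp he2) (fun n => (he3 n).2) δ (hlub e he1)
      obtain ⟨c, hc⟩ := Option.ne_none_iff_exists'.1 (he3 0).2
      have h5 := h4.2 0 c hc
      refine le_trans ?_ h5
      refine (P b).mono (p b).top (a (e 0)) _ _ ?_ hc ?_
      · rw [← hpP b _ le_rfl]
        exact (p b).code_spec
      · have h6 : a 0 ≤ a (e 0) := hmono.monotone (Nat.zero_le _)
        exact (hμ b).trans h6
    exact hinc _ (hle false) (hle true)
  -- the first index at which the sequence stops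
  let n := Nat.find hex
  have hn : ¬ {j | (P n.bodd).y j ≠ none ∧ a n < j}.Nonempty := Nat.find_spec hex
  have hlt : ∀ i < n, IsLeast {j | (P i.bodd).y j ≠ none ∧ a i < j} (a (i + 1)) := by
    intro i hi
    have h1 := Nat.find_min hex hi
    rw [not_not] at h1
    rw [ha]
    exact hnxt _ _ h1
  have htop : (P n.bodd).top ≤ a n := by
    rcases le_or_gt (P n.bodd).top (a n) with hcon | hcon
    · exact hcon
    · exact absurd ⟨_, (P n.bodd).htop, hcon⟩ hn
  exact ⟨n, a, rfl, hlt, htop⟩

/-- Adding two points to one node and one point to the other, in between, completes the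
alternating sequence. -/
theorem fin_alt {P Q : Bool → Node} {μ : K} {n : ℕ} {a : ℕ → K} (ha0 : a 0 = μ)
    (hlt : ∀ i < n, IsLeast {j | (P i.bodd).y j ≠ none ∧ a i < j} (a (i + 1)))
    (htop : (P n.bodd).top ≤ a n) (hPQ : ∀ b, P b ≤ Q b) {β₀ β β₁ : K}
    (h0 : a n < β₀) (hP : ∀ b, (P b).top < β₀) (h1 : β₀ < β) (h2 : β < β₁)
    (hf1 : (Q false).top = β₁) (hf2 : (Q false).y β₀ ≠ none)
    (hf3 : ∀ k, (Q false).y k ≠ none → k = β₀ ∨ k = β₁ ∨ (P false).y k ≠ none)
    (ht1 : (Q true).top = β)
    (ht3 : ∀ k, (Q true).y k ≠ none → k = β ∨ (P true).y k ≠ none) :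
    ∃ m, Alt μ m Q := by
  have hamono : ∀ i ≤ n, a i ≤ a n := by
    intro i hi
    induction hi using Nat.decreasingInduction with
    | self => exact le_rfl
    | of_succ k hk ih => exact (hlt k hk).1.2.le.trans ih
  have hnew : ∀ b k, (Q b).y k ≠ none → β₀ ≤ k ∨ (P b).y k ≠ none := by
    intro b k hk
    cases b with
    | false =>
      rcases hf3 k hk with h | h | h
      · exact Or.inl h.ge
      · exact Or.inl (h ▸ (h1.trans h2).le)
      · exact Or.inr h
    | true =>
      rcases ht3 k hk with h | h
      · exact Or.inl (h ▸ h1.le)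
      · exact Or.inr h
  have hstep : ∀ i < n, IsLeast {j | (Q i.bodd).y j ≠ none ∧ a i < j} (a (i + 1)) := by
    intro i hi
    have h3 := hlt i hi
    have h4 : a (i + 1) < β₀ := (hamono (i + 1) hi).trans_lt h0
    refine ⟨⟨?_, h3.1.2⟩, ?_⟩
    · rw [← hPQ i.bodd _ ((P i.bodd).hle _ h3.1.1)]
      exact h3.1.1
    · intro j hj
      rcases hnew _ _ hj.1 with h5 | h5
      · exact h4.le.trans h5
      · exact h3.2 ⟨h5, hj.2⟩
  have hQf : (Q false).y β₁ ≠ none := by rw [← hf1]; exact (Q false).htop
  have hQt : (Q true).y β ≠ none := by rw [← ht1]; exact (Q true).htop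
  rcases hb : n.bodd with _ | _
  · -- the first node is exhausted
    rw [hb] at htop
    have hb1 : (n + 1).bodd = true := by rw [Nat.bodd_succ, hb]; rfl
    have hb2 : (n + 2).bodd = false := by rw [Nat.bodd_succ, hb1]; rfl
    refine ⟨n + 1, fun i => if i ≤ n then a i else if i = n + 1 then β₀ else
      if i = n + 2 then β else β₁, ?_, ?_, ?_, ?_⟩
    · show (if 0 ≤ n then a 0 else _) = μ
      rw [if_pos (Nat.zero_le _)]
      exact ha0
    · intro i hi
      show IsLeast {j | (Q i.bodd).y j ≠ none ∧ (if i ≤ n then a i else if i = n + 1 then β₀ else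
        if i = n + 2 then β else β₁) < j}
        (if i + 1 ≤ n then a (i + 1) else if i + 1 = n + 1 then β₀ else
          if i + 1 = n + 2 then β else β₁)
      rcases lt_trichotomy i n with h3 | h3 | h3
      · rw [if_pos h3.le, if_pos (Nat.succ_le_of_lt h3)]
        exact hstep i h3
      · subst h3
        rw [if_pos le_rfl, if_neg (by omega), if_pos rfl, hb]
        refine ⟨⟨hf2, h0⟩, ?_⟩
        intro j hj
        rcases hnew _ _ hj.1 with h4 | h4
        · exact h4
        · exact absurd hj.2 (not_lt.2 (((P _).hle _ h4).trans htop))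
      · rcases (by omega : i = n + 1 ∨ i = n + 2) with h4 | h4
        · subst h4
          rw [if_neg (by omega), if_pos rfl, if_neg (by omega), if_neg (by omega), if_pos rfl,
            hb1]
          refine ⟨⟨hQt, h1⟩, ?_⟩
          intro j hj
          rcases ht3 _ hj.1 with h5 | h5
          · exact h5.ge
          · exact absurd hj.2 (not_lt.2 (((P _).hle _ h5).trans (hP true).le))
        · subst h4
          rw [if_neg (by omega), if_neg (by omega), if_pos rfl, if_neg (by omega),
            if_neg (by omega), if_neg (by omega), hb2]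
          refine ⟨⟨hQf, h2⟩, ?_⟩
          intro j hj
          rcases hf3 _ hj.1 with h5 | h5 | h5
          · exact absurd hj.2 (not_lt.2 (h5 ▸ h1.le))
          · exact h5.ge
          · exact absurd hj.2 (not_lt.2 (((P _).hle _ h5).trans ((hP false).trans h1).le))
    · show (if n + 1 + 1 ≤ n then a (n + 1 + 1) else if n + 1 + 1 = n + 1 then β₀ else
        if n + 1 + 1 = n + 2 then β else β₁) = (Q (n + 1).bodd).top
      rw [if_neg (by omega), if_neg (by omega), if_pos rfl, hb1, ht1]
    · show (if n + 1 + 2 ≤ n then a (n + 1 + 2) else if n + 1 + 2 = n + 1 then β₀ else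
        if n + 1 + 2 = n + 2 then β else β₁) = (Q (!(n + 1).bodd)).top
      rw [if_neg (by omega), if_neg (by omega), if_neg (by omega), hb1]
      exact hf1.symm
  · -- the second node is exhausted
    rw [hb] at htop
    have hb1 : (n + 1).bodd = false := by rw [Nat.bodd_succ, hb]; rfl
    refine ⟨n, fun i => if i ≤ n then a i else if i = n + 1 then β else β₁, ?_, ?_, ?_, ?_⟩
    · show (if 0 ≤ n then a 0 else _) = μ
      rw [if_pos (Nat.zero_le _)]
      exact ha0
    · intro i hi
      show IsLeast {j | (Q i.bodd).y j ≠ none ∧ (if i ≤ n then a i else if i = n + 1 then β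
        else β₁) < j} (if i + 1 ≤ n then a (i + 1) else if i + 1 = n + 1 then β else β₁)
      rcases lt_trichotomy i n with h3 | h3 | h3
      · rw [if_pos h3.le, if_pos (Nat.succ_le_of_lt h3)]
        exact hstep i h3
      · subst h3
        rw [if_pos le_rfl, if_neg (by omega), if_pos rfl, hb]
        refine ⟨⟨hQt, h0.trans h1⟩, ?_⟩
        intro j hj
        rcases ht3 _ hj.1 with h4 | h4
        · exact h4.ge
        · exact absurd hj.2 (not_lt.2 (((P _).hle _ h4).trans htop))
      · have h4 : i = n + 1 := by omega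
        subst h4
        rw [if_neg (by omega), if_pos rfl, if_neg (by omega), if_neg (by omega), hb1]
        refine ⟨⟨hQf, h2⟩, ?_⟩
        intro j hj
        rcases hf3 _ hj.1 with h5 | h5 | h5
        · exact absurd hj.2 (not_lt.2 (h5 ▸ h1.le))
        · exact h5.ge
        · exact absurd hj.2 (not_lt.2 (((P _).hle _ h5).trans ((hP false).trans h1).le))
    · show (if n + 1 ≤ n then a (n + 1) else if n + 1 = n + 1 then β else β₁) = (Q n.bodd).top
      rw [if_neg (by omega), if_pos rfl, hb, ht1]
    · show (if n + 2 ≤ n then a (n + 2) else if n + 2 = n + 1 then β else β₁) =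
        (Q (!n.bodd)).top
      rw [if_neg (by omega), if_neg (by omega), hb]
      exact hf1.symm

end Pool.Agent.Y241.DS
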