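import Mathlib
import Pool.Agent.Y241.DS.Alt

set_option autoImplicit false

namespace Pool.Agent.Y241.DS

open Set Topology Pool.Agent.H764R3.Stat Pool.Agent.H764R3.Tree

variable {ι : Type}

/-- The pair of the coordinates `i₀` and `j`. -/
def pr (i₀ : ι) (P : ι → Node) (j : ι) : Bool → Node := fun b => if b = true then P j else P i₀

theorem pr_le {i₀ : ι} {P Q : ι → Node} {j : ι} (h0 : P i₀ ≤ Q i₀) (hj : P j ≤ Q j) :
    ∀ b, pr i₀ P j b ≤ pr i₀ Q j b := by
  intro b
  cases b with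
  | false => exact h0
  | true => exact hj

/-- The first step: finitely many pairs of coordinates go above members of the family. -/
theorem exists_above {A : Set (Bool → Node)}
    (hA3 : ∀ P : Bool → Node, ∃ p ∈ A, ∃ Q : Bool → Node, (∀ b, P b ≤ Q b) ∧ ∀ b, p b ≤ Q b)
    (i₀ : ι) (F : Finset ι) (hF : i₀ ∉ F) (P : ι → Node) :
    ∃ P' : ι → Node, (∀ i, P i ≤ P' i) ∧ ∀ j ∈ F, ∃ p ∈ A, ∀ b, p b ≤ pr i₀ P' j b := by
  classical
  induction F using Finset.induction_on with
  | empty => exact ⟨P, fun i => le_rfl, fun j hj => absurd hj (Finset.notMem_empty j)⟩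
  | insert j F hj ih =>
    have hj0 : i₀ ≠ j := fun h => hF (h ▸ Finset.mem_insert_self _ _)
    obtain ⟨P', h1, h2⟩ := ih (fun h => hF (Finset.mem_insert_of_mem h))
    obtain ⟨p, hp, Q, hPQ, hpQ⟩ := hA3 (pr i₀ P' j)
    let P'' : ι → Node := Function.update (Function.update P' i₀ (Q false)) j (Q true)
    have hj' : P'' j = Q true := Function.update_self ..
    have h0' : P'' i₀ = Q false := by
      show Function.update (Function.update P' i₀ (Q false)) j (Q true) i₀ = Q false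
      rw [Function.update_of_ne hj0, Function.update_self]
    have hi' : ∀ i, i ≠ i₀ → i ≠ j → P'' i = P' i := by
      intro i hi hij
      show Function.update (Function.update P' i₀ (Q false)) j (Q true) i = P' i
      rw [Function.update_of_ne hij, Function.update_of_ne hi]
    have hle0 : P' i₀ ≤ P'' i₀ := by
      rw [h0']
      exact hPQ false
    have hle : ∀ i, P' i ≤ P'' i := by
      intro i
      by_cases hij : i = j
      · subst hij
        rw [hj']
        exact hPQ true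
      by_cases hi : i = i₀
      · subst hi
        exact hle0
      rw [hi' i hi hij]
    refine ⟨P'', fun i => (h1 i).trans (hle i), ?_⟩
    intro k hk
    rcases Finset.mem_insert.1 hk with rfl | hk
    · refine ⟨p, hp, fun b => ?_⟩
      cases b with
      | false =>
        show p false ≤ P'' i₀
        rw [h0']
        exact hpQ false
      | true =>
        show p true ≤ P'' k
        rw [hj']
        exact hpQ true
    · obtain ⟨q, hq, hqP⟩ := h2 k hk
      exact ⟨q, hq, fun b => (hqP b).trans (pr_le hle0 (hle k) b)⟩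

/-- The antichains of the power. -/
def Jset (A : Set (Bool → Node)) (d : Node) (i₀ : ι) (G : Finset (ι × ℕ)) : Set (ι → Node) :=
  {P | G.Nonempty ∧ (∀ i, i ≠ i₀ → (∀ g ∈ G, g.1 ≠ i) → P i = d) ∧
    ∀ g ∈ G, ∃ p ∈ A, (∀ b, p b ≤ pr i₀ P g.1 b) ∧
      Alt (max (p false).top (p true).top) g.2 (pr i₀ P g.1)}

theorem Jset_eq {A : Set (Bool → Node)} (hA2 : A.Pairwise Sep) {d : Node} {i₀ : ι}
    {G : Finset (ι × ℕ)} {P Q R : ι → Node} (hP : P ∈ Jset A d i₀ G) (hQ : Q ∈ Jset A d i₀ G)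
    (hP0 : P i₀ ≤ R i₀) (hQ0 : Q i₀ ≤ R i₀) (hPR : ∀ g ∈ G, P g.1 ≤ R g.1)
    (hQR : ∀ g ∈ G, Q g.1 ≤ R g.1) : P = Q := by
  classical
  obtain ⟨⟨g₀, hg₀⟩, hP1, hP2⟩ := hP
  obtain ⟨-, hQ1, hQ2⟩ := hQ
  have key : ∀ g ∈ G, P g.1 = Q g.1 ∧ P i₀ = Q i₀ := by
    intro g hg
    obtain ⟨p, hp, hpP, hpA⟩ := hP2 g hg
    obtain ⟨q, hq, hqQ, hqA⟩ := hQ2 g hg
    have h1 := pr_le hP0 (hPR g hg)
    have h2 := pr_le hQ0 (hQR g hg)
    have hpq : p = q := by
      by_contra hne
      exact hA2 hp hq hne ⟨pr i₀ R g.1, fun b => (hpP b).trans (h1 b),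
        fun b => (hqQ b).trans (h2 b)⟩
    subst hpq
    have h3 := Alt.unique hpA hqA h1 h2
    exact ⟨congrFun h3 true, congrFun h3 false⟩
  funext i
  by_cases hi : i = i₀
  · rw [hi]
    exact (key g₀ hg₀).2
  by_cases hiG : ∀ g ∈ G, g.1 ≠ i
  · rw [hP1 i hi hiG, hQ1 i hi hiG]
  · push Not at hiG
    obtain ⟨g, hg, rfl⟩ := hiG
    exact (key g hg).1

/-- The antichains are dense. -/
theorem exists_Jset {A : Set (Bool → Node)} (hA1 : ∀ p ∈ A, Inc (p false).code (p true).code)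
    (hA3 : ∀ P : Bool → Node, ∃ p ∈ A, ∃ Q : Bool → Node, (∀ b, P b ≤ Q b) ∧ ∀ b, p b ≤ Q b)
    (d : Node) (i₀ : ι) (F : Finset ι) (hF : i₀ ∉ F) (hne : F.Nonempty) (P : ι → Node) :
    ∃ (G : Finset (ι × ℕ)) (Q : ι → Node), Q ∈ Jset A d i₀ G ∧ P i₀ ≤ Q i₀ ∧
      ∀ i ∈ F, P i ≤ Q i ∧ ∃ g ∈ G, g.1 = i := by
  classical
  obtain ⟨P', h1, h2⟩ := exists_above hA3 i₀ F hF P
  have h3 : ∀ j, ∃ (p : Bool → Node) (n : ℕ) (a : ℕ → K), j ∈ F → (p ∈ A ∧
      (∀ b, p b ≤ pr i₀ P' j b) ∧ a 0 = max (p false).top (p true).top ∧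
      (∀ i < n, IsLeast {k | (pr i₀ P' j i.bodd).y k ≠ none ∧ a i < k} (a (i + 1))) ∧
      (pr i₀ P' j n.bodd).top ≤ a n) := by
    intro j
    by_cases hj : j ∈ F
    · obtain ⟨p, hp, hpP⟩ := h2 j hj
      obtain ⟨n, a, h4, h5, h6⟩ := exists_stop (hA1 p hp) hpP
        (μ := max (p false).top (p true).top) (by
          intro b
          cases b with
          | false => exact le_max_left _ _
          | true => exact le_max_right _ _)
      exact ⟨p, n, a, fun _ => ⟨hp, hpP, h4, h5, h6⟩⟩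
    · exact ⟨fun _ => d, 0, fun _ => d.top, fun h => absurd h hj⟩
  choose p n a h4 using h3
  -- a point above everything
  obtain ⟨β₀, hβ1, hβ2⟩ : ∃ β₀ : K, (P' i₀).top < β₀ ∧
      ∀ j ∈ F, a j (n j) < β₀ ∧ (P' j).top < β₀ := by
    obtain ⟨β, hβ⟩ := Finset.exists_le
      (insert (P' i₀).top (F.image (fun j => max (a j (n j)) (P' j).top)))
    obtain ⟨γ, hγ⟩ := exists_gt β
    refine ⟨γ, (hβ _ (Finset.mem_insert_self _ _)).trans_lt hγ, fun j hj => ?_⟩
    have h5 := hβ _ (Finset.mem_insert_of_mem (Finset.mem_image_of_mem _ hj))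
    exact ⟨((le_max_left _ _).trans h5).trans_lt hγ, ((le_max_right _ _).trans h5).trans_lt hγ⟩
  obtain ⟨β, hβ⟩ := exists_gt β₀
  obtain ⟨β₁, hβ₁⟩ := exists_gt β
  obtain ⟨s, hs1, hs2, -, hs4, hs5⟩ := (P' i₀).exists_succ β₀ hβ1 (P' i₀).code le_rfl
  obtain ⟨s', hs1', hs2', -, hs4', hs5'⟩ := s.exists_succ β₁ (by
    rw [hs2]; exact hβ.trans hβ₁) s.code le_rfl
  have ht : ∀ j, ∃ t : Node, j ∈ F → (P' j ≤ t ∧ t.top = β ∧
      ∀ k, t.y k ≠ none → k = β ∨ (P' j).y k ≠ none) := by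
    intro j
    by_cases hj : j ∈ F
    · obtain ⟨t, ht1, ht2, -, ht4, -⟩ := (P' j).exists_succ β ((hβ2 j hj).2.trans hβ)
        (P' j).code le_rfl
      exact ⟨t, fun _ => ⟨ht1, ht2, ht4⟩⟩
    · exact ⟨d, fun h => absurd h hj⟩
  choose t ht1 using ht
  let Q : ι → Node := fun i => if i = i₀ then s' else if i ∈ F then t i else d
  have hQ0 : Q i₀ = s' := if_pos rfl
  have hQF : ∀ j ∈ F, Q j = t j := by
    intro j hj
    have hj0 : j ≠ i₀ := fun h => hF (h ▸ hj)
    show (if j = i₀ then s' else if j ∈ F then t j else d) = t j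
    rw [if_neg hj0, if_pos hj]
  have hQd : ∀ i, i ≠ i₀ → i ∉ F → Q i = d := by
    intro i hi hiF
    show (if i = i₀ then s' else if i ∈ F then t i else d) = d
    rw [if_neg hi, if_neg hiF]
  have hle0 : P' i₀ ≤ Q i₀ := by
    rw [hQ0]
    exact hs1.trans hs1'
  have hleF : ∀ j ∈ F, P' j ≤ Q j := by
    intro j hj
    rw [hQF j hj]
    exact (ht1 j hj).1
  have hm : ∀ j, ∃ m : ℕ, j ∈ F → Alt (max (p j false).top (p j true).top) m (pr i₀ Q j) := by
    intro j
    by_cases hj : j ∈ F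
    · obtain ⟨-, hpP, h5, h6, h7⟩ := h4 j hj
      obtain ⟨m, hm⟩ := fin_alt (P := pr i₀ P' j) (Q := pr i₀ Q j) h5 h6 h7
        (pr_le hle0 (hleF j hj)) (β₀ := β₀) (β := β) (β₁ := β₁) (hβ2 j hj).1 (by
          intro b
          cases b with
          | false => exact hβ1
          | true => exact (hβ2 j hj).2) hβ hβ₁
        (by show (Q i₀).top = β₁; rw [hQ0]; exact hs2')
        (by
          show (Q i₀).y β₀ ≠ none
          rw [hQ0]
          apply hs5'
          rw [← hs2]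
          exact s.htop)
        (by
          intro k hk
          have hk' : s'.y k ≠ none := by
            have : (Q i₀).y k ≠ none := hk
            rwa [hQ0] at this
          rcases hs4' k hk' with h8 | h8
          · exact Or.inr (Or.inl h8)
          · rcases hs4 k h8 with h9 | h9
            · exact Or.inl h9
            · exact Or.inr (Or.inr h9))
        (by show (Q j).top = β; rw [hQF j hj]; exact (ht1 j hj).2.1)
        (by
          intro k hk
          have hk' : (t j).y k ≠ none := by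
            have : (Q j).y k ≠ none := hk
            rwa [hQF j hj] at this
          exact (ht1 j hj).2.2 k hk')
      exact ⟨m, fun _ => hm⟩
    · exact ⟨0, fun h => absurd h hj⟩
  choose m hm1 using hm
  refine ⟨F.image (fun j => (j, m j)), Q, ⟨hne.image _, ?_, ?_⟩, (h1 i₀).trans hle0, ?_⟩
  · intro i hi hiG
    apply hQd i hi
    intro hiF
    exact hiG (i, m i) (Finset.mem_image_of_mem _ hiF) rfl
  · intro g hg
    obtain ⟨j, hj, rfl⟩ := Finset.mem_image.1 hg
    exact ⟨p j, (h4 j hj).1, fun b => ((h4 j hj).2.1 b).trans (pr_le hle0 (hleF j hj) b),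
      hm1 j hj⟩
  · intro i hi
    exact ⟨(h1 i).trans (hleF i hi), (i, m i), Finset.mem_image_of_mem _ hi, rfl⟩

/-- Every countable power with at least two coordinates is D-separable. -/
theorem dSeparable_pow [Countable ι] [Nontrivial ι] : BigDSeparable (ι → Node) := by
  classical
  intro D hD
  obtain ⟨i₀, j₀, hij⟩ := exists_pair_ne ι
  obtain ⟨A, hA1, hA2, hA3⟩ := exists_family
  let d : Node := Classical.arbitrary Node
  obtain ⟨e, he⟩ := exists_surjective_nat (Finset (ι × ℕ))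
  let C : Finset (ι × ℕ) → (ι → Node) → Set (ι → Node) := fun G P =>
    {R | ∀ i ∈ insert i₀ (G.image Prod.fst), P i ≤ R i}
  have hC : ∀ G P, IsOpen (C G P) := by
    intro G P
    have h1 : C G P = (↑(insert i₀ (G.image Prod.fst)) : Set ι).pi
        (fun i => {u : Node | P i ≤ u}) := by
      ext R
      rfl
    rw [h1]
    exact isOpen_set_pi (Finset.finite_toSet _) fun i _ => (isClopen_cone (P i)).isOpen
  have hz : ∀ (n : ℕ) (P : ι → Node), ∃ z ∈ D n, z ∈ C (e n) P := by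
    intro n P
    obtain ⟨z, h1, h2⟩ := (hD n).inter_open_nonempty _ (hC (e n) P) ⟨P, fun i _ => le_refl (P i)⟩
    exact ⟨z, h2, h1⟩
  choose z hz1 hz2 using hz
  refine ⟨fun n => z n '' Jset A d i₀ (e n), fun n => ⟨?_, ?_⟩, ?_⟩
  · rintro _ ⟨P, _, rfl⟩
    exact hz1 n P
  · rw [discreteTopology_iff_isOpen_singleton]
    rintro ⟨_, ⟨P, hP, rfl⟩⟩
    rw [isOpen_induced_iff]
    refine ⟨_, hC (e n) P, ?_⟩
    ext ⟨_, ⟨Q, hQ, rfl⟩⟩
    constructor
    · intro h
      have h1 : z n Q ∈ C (e n) P := h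
      have h2 := hz2 n Q
      have h3 : ∀ g ∈ e n, g.1 ∈ insert i₀ ((e n).image Prod.fst) := fun g hg =>
        Finset.mem_insert_of_mem (Finset.mem_image_of_mem _ hg)
      have h4 := Jset_eq hA2 hP hQ (h1 i₀ (Finset.mem_insert_self _ _))
        (h2 i₀ (Finset.mem_insert_self _ _)) (fun g hg => h1 _ (h3 g hg))
        (fun g hg => h2 _ (h3 g hg))
      subst h4
      rfl
    · intro h
      have h1 : z n Q = z n P := congrArg Subtype.val h
      show z n Q ∈ C (e n) P
      rw [h1]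
      exact hz2 n P
  · rw [dense_iff_inter_open]
    rintro W hW ⟨f, hf⟩
    obtain ⟨I, u, hu, hIW⟩ := isOpen_pi_iff.1 hW f hf
    have hr : ∀ i, ∃ r : Node, i ∈ I → ∀ v, r ≤ v → v ∈ u i := by
      intro i
      by_cases hi : i ∈ I
      · obtain ⟨r, _, _, hr⟩ := exists_cone (hu i hi).1 (hu i hi).2
        exact ⟨r, fun _ => hr⟩
      · exact ⟨d, fun h => absurd h hi⟩
    choose r hr1 using hr
    obtain ⟨G, Q, hQ, hQ0, hQF⟩ := exists_Jset hA1 hA3 d i₀ ((insert j₀ I).erase i₀)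
      (Finset.notMem_erase _ _)
      ⟨j₀, Finset.mem_erase.2 ⟨hij.symm, Finset.mem_insert_self _ _⟩⟩ r
    obtain ⟨n, hn⟩ := he G
    subst hn
    refine ⟨z n Q, hIW ?_, mem_iUnion.2 ⟨n, Q, hQ, rfl⟩⟩
    intro i hi
    have h1 := hz2 n Q
    by_cases hi0 : i = i₀
    · subst hi0
      exact hr1 i hi _ (hQ0.trans (h1 i (Finset.mem_insert_self _ _)))
    · obtain ⟨h2, g, hg, hgi⟩ := hQF i (Finset.mem_erase.2 ⟨hi0, Finset.mem_insert_of_mem hi⟩)
      apply hr1 i hi _ (h2.trans (h1 i (Finset.mem_insert_of_mem ?_)))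
      rw [← hgi]
      exact Finset.mem_image_of_mem _ hg

end Pool.Agent.Y241.DS
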